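import Pool.Agent.H36.UDA.ARE
import Pool.Agent.H74.UDA.BF
import Pool.Agent.H14.UDA.CB
import Pool.Agent.H59.UDA.CP
import Pool.Agent.H43.UDA.DV
import Pool.Agent.H34.UDA.FB
import Pool.Agent.H98.UDA.FN
import Pool.Agent.H34.UDA.FP
import Pool.Agent.H82.UDA.IBP
import Pool.Agent.H67.UDA.IT
import Pool.Agent.H74.UDA.LJ0
import Pool.Agent.H10.UDA.LJ1
import Pool.Agent.H82.UDA.MAR
import Pool.Agent.H19.UDA.MON
import Pool.Agent.H35.UDA.NEG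
import Pool.Agent.H26.UDA.NES
import Pool.Agent.H67.UDA.NTR
import Pool.Agent.H34.UDA.NULz
import Pool.Agent.H11.UDA.REC
import Pool.Agent.H43.UDA.RU
import Pool.Agent.H43.UDA.SIM
import Pool.Agent.H39.UDA.SW
import Pool.Agent.H37.UDA.TF
import Pool.Agent.H68.UDA.VN
import Pool.Agent.H19.UDA.BR
import Pool.Agent.H19.UDA.CO1
import Pool.Agent.H37.UDA.CO2
import Pool.Agent.H11.UDA.CONx
import Pool.Agent.H70.UDA.CS
import Pool.Agent.H70.UDA.GRN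
import Pool.Agent.H67.UDA.LOG
import Pool.Agent.H14.UDA.MEA
import Pool.Agent.H14.UDA.MEC
import Pool.Agent.H68.UDA.UNI
import Pool.Agent.H14.UDA.AF
import Pool.Agent.H43.UDA.BD
import Pool.Agent.H98.UDA.CY
import Pool.Agent.H36.UDA.INT
import Pool.Agent.H59.UDA.MU
import Pool.Agent.H78.UDA.AC
import Pool.Agent.H35.UDA.BB
import Pool.Agent.H43.UDA.DIA
import Pool.Agent.H47.UDA.OFF
import Pool.Agent.H16.UDA.SL
import Pool.Agent.H83.UDA.MAIN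
import Pool.Agent.H34.UDA.PK

/-!
# Assembly of board uda_modules for MP_75a732_an, helper83
-/

set_option autoImplicit false

namespace Pool.Agent.H83.UDA.All

open Pool.Agent.H83.UE

theorem t_ARE : T_ARE := Pool.Agent.H36.UDA.pf_ARE

theorem t_BF : T_BF := Pool.Agent.H74.UDA.BF.pf_BF

theorem t_CB : T_CB := Pool.Agent.H14.UDA.pf_CB

theorem t_CP : T_CP := Pool.Agent.H59.UDA.pf_CP

theorem t_DV : T_DV := Pool.Agent.H43.UDA.pf_DV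

theorem t_FB : T_FB := Pool.Agent.H34.UDA.pf_FB

theorem t_FN : T_FN := Pool.Agent.H98.UDA.pf_FN

theorem t_FP : T_FP := Pool.Agent.H34.UDA.pf_FP

theorem t_IBP : T_IBP := Pool.Agent.H82.UDA.pf_IBP

theorem t_IT : T_IT := Pool.Agent.H67.UDA.pf_IT

theorem t_LJ0 : T_LJ0 := Pool.Agent.H74.UDA.LJ0.pf_LJ0 t_BF

theorem t_LJ1 : T_LJ1 := Pool.Agent.H10.UDA.pf_LJ1 t_BF

theorem t_MAR : T_MAR := Pool.Agent.H82.UDA.pf_MAR

theorem t_MON : T_MON := Pool.Agent.H19.UDA.pf_MON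

theorem t_NEG : T_NEG := Pool.Agent.H35.UDA.pf_NEG t_IT

theorem t_NES : T_NES := Pool.Agent.H26.UDA.pf_NES

theorem t_NTR : T_NTR := Pool.Agent.H67.UDA.pf_NTR t_BF

theorem t_NUL : T_NUL := Pool.Agent.H34.UDA.pf_NUL t_MAR

theorem t_REC : T_REC := Pool.Agent.H11.UDA.pf_REC

theorem t_RU : T_RU := Pool.Agent.H43.UDA.pf_RU

theorem t_SIM : T_SIM := Pool.Agent.H43.UDA.pf_SIM

theorem t_SW : T_SW := Pool.Agent.H39.UDA.pf_SW

theorem t_TF : T_TF := Pool.Agent.H37.UDA.pf_TF t_MON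

theorem t_VN : T_VN := Pool.Agent.H68.UDA.pf_VN

theorem t_BR : T_BR := Pool.Agent.H19.UDA.pf_BR t_IT t_SIM

theorem t_CO1 : T_CO1 := Pool.Agent.H19.UDA.pf_CO1 t_MON

theorem t_CO2 : T_CO2 := Pool.Agent.H37.UDA.pf_CO2 t_MON

theorem t_CON : T_CON := Pool.Agent.H11.UDA.pf_CON t_SIM t_ARE

theorem t_CS : T_CS := Pool.Agent.H70.UDA.pf_CS t_MAR

theorem t_GRN : T_GRN := Pool.Agent.H70.UDA.pf_GRN t_IT t_FN

theorem t_LOG : T_LOG := Pool.Agent.H67.UDA.pf_LOG t_NTR t_LJ0 t_LJ1 t_REC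

theorem t_MEA : T_MEA := Pool.Agent.H14.UDA.pf_MEA t_SIM

theorem t_MEC : T_MEC := Pool.Agent.H14.UDA.pf_MEC t_IT t_MEA t_FP t_SW

theorem t_UNI : T_UNI := Pool.Agent.H68.UDA.pf_UNI t_IT t_VN

theorem t_AF : T_AF := Pool.Agent.H14.UDA.pf_AF t_IT t_BR t_CB

theorem t_BD : T_BD := Pool.Agent.H43.UDA.pf_BD t_IT t_SIM t_CON t_CS t_FB t_NUL t_MEC t_MEA

theorem t_CY : T_CY := Pool.Agent.H98.UDA.pf_CY t_AF t_NEG t_NES t_CO2 t_IT

theorem t_INT : T_INT := Pool.Agent.H36.UDA.pf_INT t_SIM t_ARE t_MEA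

theorem t_MU : T_MU := Pool.Agent.H59.UDA.MU.pf_MU t_UNI t_RU

theorem t_AC : T_AC := Pool.Agent.H78.UDA.pf_AC t_AF t_NEG t_NES

theorem t_BB : T_BB := Pool.Agent.H35.UDA.pf_BB t_IT t_GRN t_UNI t_CP t_SIM t_ARE t_MEA t_CON t_INT t_DV t_IBP

theorem t_DIA : T_DIA := Pool.Agent.H43.UDA.pf_DIA t_IT t_UNI t_RU t_INT t_MAR t_FP t_MEA t_CON

theorem t_OFF : T_OFF := Pool.Agent.H47.UDA.pf_OFF t_IT t_CON t_CS t_FP t_BB t_MEA

theorem t_SL : T_SL := Pool.Agent.H16.UDA.pf_SL t_CY t_AC t_CO1 t_MON t_TF t_IT t_AF t_MEC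

theorem t_MAIN : T_MAIN := Pool.Agent.H83.UDA.pf_MAIN t_GRN t_LOG t_MU t_BD t_OFF t_DIA t_SW

theorem t_PK : T_PK := Pool.Agent.H34.UDA.pf_PK t_MAIN t_SL t_TF

end Pool.Agent.H83.UDA.All
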