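import Pool.Agent.H83.UE.Targets

/-! MP_75a732_an, module MAIN (helper83). -/

set_option autoImplicit false

open Polynomial MeasureTheory Filter Topology Set
open scoped OnePoint ComplexConjugate ComplexOrder Laplacian ENNReal

namespace Pool.Agent.H83.UDA

open Pool.Agent.H83.UE

lemma good_mono {d : ℕ} {g : RatMap d} {κ κ' : ℝ} (h : Good g κ) (hle : κ ≤ κ') (hlt : κ' < d) :
    Good g κ' := by
  refine ⟨h.1.trans hle, hlt, fun R => ?_⟩
  obtain ⟨C, hC, hb⟩ := h.2.2 R
  refine ⟨C, hC, fun n z hz => (hb n z hz).trans (ENNReal.ofReal_le_ofReal ?_)⟩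
  have h0 : (0 : ℝ) ≤ κ := zero_le_one.trans h.1
  exact mul_le_mul_of_nonneg_left (pow_le_pow_left₀ h0 hle n) hC

lemma exists_kappa {k d : ℕ} (hd : 2 ≤ d) (κ : Fin k → ℝ) (hκ : ∀ l, κ l < d) :
    ∃ κ0 : ℝ, 1 ≤ κ0 ∧ κ0 < d ∧ ∀ l, κ l ≤ κ0 := by
  classical
  let T : Finset ℝ := insert 1 (Finset.univ.image κ)
  have hT : T.Nonempty := ⟨1, Finset.mem_insert_self _ _⟩
  refine ⟨T.max' hT, T.le_max' _ (Finset.mem_insert_self _ _), ?_, fun l => T.le_max' _ ?_⟩
  · have hm := T.max'_mem hT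
    rcases Finset.mem_insert.1 hm with h | h
    · rw [h]
      have : (2 : ℝ) ≤ d := by exact_mod_cast hd
      linarith
    · obtain ⟨l, _, hl⟩ := Finset.mem_image.1 h
      rw [← hl]
      exact hκ l
  · exact Finset.mem_insert_of_mem (Finset.mem_image_of_mem _ (Finset.mem_univ _))

section lin

variable {k m d : ℕ} (g : Fin k → RatMap d) (n : ℕ) (S : Current k m) (I J : Idx k m)

lemma pushCoeff_sub (χ χ' : (Fin k → ℂ) → ℂ) (z : Fin k → ℂ) :
    pushCoeff g n I J (fun x => χ x - χ' x) z = pushCoeff g n I J χ z - pushCoeff g n I J χ' z := by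
  unfold pushCoeff fibSum
  rw [← Finset.sum_sub_distrib]
  refine Finset.sum_congr rfl fun x _ => ?_
  simp only [sub_div, mul_sub]

lemma pushCoeff_sum {N : ℕ} (c : Fin N → ℂ) (f : Fin N → (Fin k → ℂ) → ℂ) (z : Fin k → ℂ) :
    pushCoeff g n I J (fun x => ∑ a, c a * f a x) z = ∑ a, c a * pushCoeff g n I J (f a) z := by
  unfold pushCoeff fibSum
  simp_rw [Finset.mul_sum]
  rw [Finset.sum_comm]
  refine Finset.sum_congr rfl fun x _ => ?_
  rw [Finset.sum_div, Finset.mul_sum]
  refine Finset.sum_congr rfl fun a _ => ?_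
  ring

lemma pairing_sub (χ χ' : (Fin k → ℂ) → ℂ)
    (h : Integrable (fun z => pushCoeff g n I J χ z * S.h z I J) S.σ)
    (h' : Integrable (fun z => pushCoeff g n I J χ' z * S.h z I J) S.σ) :
    pairing g n S I J (fun x => χ x - χ' x) = pairing g n S I J χ - pairing g n S I J χ' := by
  unfold pairing
  rw [← mul_sub, ← integral_sub h h']
  congr 1
  refine integral_congr_ae (Eventually.of_forall fun z => ?_)
  simp only
  rw [pushCoeff_sub]
  ring

lemma pairing_sum {N : ℕ} (c : Fin N → ℂ) (f : Fin N → (Fin k → ℂ) → ℂ)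
    (h : ∀ a, Integrable (fun z => pushCoeff g n I J (f a) z * S.h z I J) S.σ) :
    pairing g n S I J (fun x => ∑ a, c a * f a x) = ∑ a, c a * pairing g n S I J (f a) := by
  unfold pairing
  have e : ∀ z, pushCoeff g n I J (fun x => ∑ a, c a * f a x) z * S.h z I J =
      ∑ a, c a * (pushCoeff g n I J (f a) z * S.h z I J) := by
    intro z
    rw [pushCoeff_sum, Finset.sum_mul]
    exact Finset.sum_congr rfl fun a _ => by ring
  simp_rw [e]
  rw [integral_finsetSum _ fun a _ => (h a).const_mul (c a), Finset.mul_sum]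
  refine Finset.sum_congr rfl fun a _ => ?_
  rw [integral_const_mul]
  ring

lemma int_sum {N : ℕ} (c : Fin N → ℂ) (f : Fin N → (Fin k → ℂ) → ℂ)
    (h : ∀ a, Integrable (fun z => pushCoeff g n I J (f a) z * S.h z I J) S.σ) :
    Integrable (fun z => pushCoeff g n I J (fun x => ∑ a, c a * f a x) z * S.h z I J) S.σ := by
  have e : (fun z => pushCoeff g n I J (fun x => ∑ a, c a * f a x) z * S.h z I J) =
      fun z => ∑ a, c a * (pushCoeff g n I J (f a) z * S.h z I J) := by
    funext z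
    rw [pushCoeff_sum, Finset.sum_mul]
    exact Finset.sum_congr rfl fun a _ => by ring
  rw [e]
  exact integrable_finset_sum _ fun a _ => (h a).const_mul (c a)

end lin

section lim

variable {k m : ℕ} (μ : Fin k → Measure ℂ) (hμ : ∀ l, IsProbabilityMeasure (μ l)) (I : Idx k m)

include hμ in
lemma fac_lf (l : Fin k) :
    IsLocallyFiniteMeasure (if l ∈ I.1 then (volume : Measure ℂ) else μ l) := by
  have := hμ l
  split_ifs <;> infer_instance

include hμ in
lemma fac_sf (l : Fin k) : SigmaFinite (if l ∈ I.1 then (volume : Measure ℂ) else μ l) := by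
  have := hμ l
  split_ifs <;> infer_instance

include hμ in
lemma lim_lf : IsFiniteMeasureOnCompacts (limMeas μ I) := by
  unfold limMeas
  have := fac_lf μ hμ I
  have := fac_sf μ hμ I
  have : IsLocallyFiniteMeasure
      (Measure.pi fun l => if l ∈ I.1 then (volume : Measure ℂ) else μ l) := inferInstance
  infer_instance

end lim

lemma hcs_of_support {k : ℕ} {R : ℝ} {χ : (Fin k → ℂ) → ℂ}
    (h : ∀ x, (∃ l, R ≤ ‖x l‖) → χ x = 0) : HasCompactSupport χ := by
  refine HasCompactSupport.intro (K := Set.pi Set.univ fun _ => Metric.closedBall (0 : ℂ) R)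
    (isCompact_univ_pi fun _ => isCompact_closedBall _ _) fun x hx => ?_
  refine h x ?_
  by_contra hne
  push Not at hne
  exact hx fun l _ => by simpa using (hne l).le

lemma prod_bdd {k : ℕ} {u : Fin k → ℂ → ℂ} (hu : ∀ l, Continuous (u l))
    (hc : ∀ l, HasCompactSupport (u l)) : ∃ B : ℝ, 0 ≤ B ∧ ∀ x : Fin k → ℂ, ‖∏ l, u l (x l)‖ ≤ B := by
  have : ∀ l, ∃ B : ℝ, ∀ x, ‖u l x‖ ≤ B := fun l => (hc l).exists_bound_of_continuous (hu l)
  choose B hB using this
  refine ⟨∏ l, |B l|, Finset.prod_nonneg fun l _ => abs_nonneg _, fun x => ?_⟩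
  rw [norm_prod]
  exact Finset.prod_le_prod (fun l _ => norm_nonneg _) fun l _ =>
    (hB l (x l)).trans (le_abs_self _)

lemma hcs_one {R : ℝ} {u : ℂ → ℂ} (h : ∀ x, R ≤ ‖x‖ → u x = 0) : HasCompactSupport u := by
  refine HasCompactSupport.intro (isCompact_closedBall (0 : ℂ) R) fun x hx => h x ?_
  simp only [Metric.mem_closedBall, dist_zero_right, not_le] at hx
  exact hx.le

theorem pf_MAIN (h1 : T_GRN) (h2 : T_LOG) (h3 : T_MU) (h4 : T_BD) (h5 : T_OFF) (h6 : T_DIA)
    (h7 : T_SW) : T_MAIN := by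
  intro k m d hd hmk g hg
  have hd0 : (0 : ℝ) < d := by
    have : (2 : ℝ) ≤ d := by exact_mod_cast hd
    linarith
  choose κ hκ using fun l => h2 d hd (g l) (hg l)
  obtain ⟨κ0, hκ1, hκd, hκle⟩ := exists_kappa hd κ fun l => (hκ l).2.1
  have hgood : ∀ l, Good (g l) κ0 := fun l => good_mono (hκ l) (hκle l) hκd
  choose G hG using fun l => h1 d hd (g l)
  choose μ hμp hμ using fun l => h3 d hd (g l) κ0 (hgood l) (G l) (hG l)
  have hr0 : 0 < κ0 / d := div_pos (zero_lt_one.trans_le hκ1) hd0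
  have hr1 : κ0 / d < 1 := (div_lt_one hd0).2 hκd
  have hrate : ∀ u : Fin k → ℂ → ℂ, (∀ l, ContDiff ℝ 2 (u l)) →
      (∀ l, HasCompactSupport (u l)) → ∃ C : ℝ, 0 ≤ C ∧ ∀ (S : Current k m) (I J : Idx k m) (n : ℕ),
        ‖pairing g n S I J (fun x => ∏ l, u l (x l)) -
          limVal μ S I J (fun x => ∏ l, u l (x l))‖ ≤
            C * Real.sqrt (S.c I * S.c J) * (κ0 / d) ^ n := by
    intro u hu hc
    obtain ⟨C1, hC1, b1⟩ := h5 k m d hd hmk g κ0 hgood u hu hc
    obtain ⟨C2, hC2, b2⟩ := h6 k m d hd hmk g κ0 hgood G μ hG hμp hμ u hu hc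
    refine ⟨C1 + C2, by positivity, fun S I J n => ?_⟩
    have hs : 0 ≤ Real.sqrt (S.c I * S.c J) := Real.sqrt_nonneg _
    have hp : 0 ≤ (κ0 / d) ^ n := pow_nonneg hr0.le n
    by_cases hIJ : I = J
    · subst hIJ
      have e : Real.sqrt ((S.c I : ℝ) * S.c I) = S.c I :=
        Real.sqrt_mul_self (NNReal.coe_nonneg _)
      have h := b2 S I n
      unfold limVal
      rw [if_pos rfl, e]
      refine h.trans ?_
      have hc0 : (0 : ℝ) ≤ S.c I := NNReal.coe_nonneg _
      have : C2 * S.c I ≤ (C1 + C2) * S.c I := by nlinarith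
      exact mul_le_mul_of_nonneg_right this hp
    · have h := b1 S I J n hIJ
      unfold limVal
      rw [if_neg hIJ, sub_zero]
      refine h.trans ?_
      have : C1 * Real.sqrt (S.c I * S.c J) ≤ (C1 + C2) * Real.sqrt (S.c I * S.c J) := by
        nlinarith
      exact mul_le_mul_of_nonneg_right this hp
  refine ⟨μ, fun l => ⟨hμp l, G l, (hG l).1, (hG l).2.1, hμ l⟩, ?_, κ0 / d, hr0, hr1, ?_⟩
  swap
  · intro u hu hc
    obtain ⟨C, _, hC⟩ := hrate u hu hc
    exact ⟨C, hC⟩
  intro S I J χ hχ hχc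
  obtain ⟨R, hR, hap⟩ := h7 k χ hχ hχc
  obtain ⟨Cb, hCb, hbd⟩ := h4 k m d hd hmk g R
  obtain ⟨B, hB⟩ : ∃ B : ℝ, ∀ x, ‖χ x‖ ≤ B := hχc.exists_bound_of_continuous hχ
  have hB' : ∀ x, ‖χ x‖ ≤ |B| := fun x => (hB x).trans (le_abs_self _)
  have hint : ∀ n, Integrable (fun z => pushCoeff g n I J χ z * S.h z I J) S.σ := fun n =>
    (hbd S I J n |B| χ (abs_nonneg _) hχ hB' hR).1
  refine ⟨hint, ?_⟩
  have := lim_lf μ hμp I
  set K : Set (Fin k → ℂ) := Set.pi Set.univ fun _ => Metric.closedBall (0 : ℂ) R with hK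
  have hKc : IsCompact K := isCompact_univ_pi fun _ => isCompact_closedBall _ _
  set M : ℝ := (limMeas μ I).real K with hM
  have hM0 : 0 ≤ M := measureReal_nonneg
  have hKfin : limMeas μ I K < ⊤ := hKc.measure_lt_top
  -- integral bound
  have hlimbd : ∀ (ψ : (Fin k → ℂ) → ℂ) (ε : ℝ), 0 ≤ ε → (∀ x, ‖ψ x‖ ≤ ε) →
      (∀ x, (∃ l, R ≤ ‖x l‖) → ψ x = 0) → ‖∫ x, ψ x ∂(limMeas μ I)‖ ≤ ε * M := by
    intro ψ ε hε hψ hs
    have hz : ∀ x, x ∉ K → ψ x = 0 := by
      intro x hx
      refine hs x ?_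
      by_contra hne
      push Not at hne
      exact hx fun l _ => by simpa using (hne l).le
    rw [← setIntegral_eq_integral_of_forall_compl_eq_zero hz]
    exact norm_setIntegral_le_of_norm_le_const hKfin fun x _ => hψ x
  have hlimsub : ∀ ψ ψ' : (Fin k → ℂ) → ℂ, Continuous ψ → Continuous ψ' →
      HasCompactSupport ψ → HasCompactSupport ψ' →
      limVal μ S I J (fun x => ψ x - ψ' x) = limVal μ S I J ψ - limVal μ S I J ψ' := by
    intro ψ ψ' a b c e
    unfold limVal
    split_ifs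
    · rw [integral_sub (a.integrable_of_hasCompactSupport c) (b.integrable_of_hasCompactSupport e),
        mul_sub]
    · simp
  have hlimnorm : ∀ (ψ : (Fin k → ℂ) → ℂ) (ε : ℝ), 0 ≤ ε → (∀ x, ‖ψ x‖ ≤ ε) →
      (∀ x, (∃ l, R ≤ ‖x l‖) → ψ x = 0) → ‖limVal μ S I J ψ‖ ≤ S.c I * (ε * M) := by
    intro ψ ε hε hψ hs
    unfold limVal
    have hc0 : (0 : ℝ) ≤ S.c I := NNReal.coe_nonneg _
    split_ifs
    · rw [norm_mul]
      have : ‖((S.c I : NNReal) : ℂ)‖ = S.c I := by simp
      rw [this]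
      exact mul_le_mul_of_nonneg_left (hlimbd ψ ε hε hψ hs) hc0
    · rw [norm_zero]
      positivity
  rw [Metric.tendsto_atTop]
  intro ε hε
  set A : ℝ := Cb * Real.sqrt (S.c I * S.c J) + S.c I * M + 1 with hA
  have hA0 : 0 < A := by
    have h1 : 0 ≤ Cb * Real.sqrt (S.c I * S.c J) := mul_nonneg hCb (Real.sqrt_nonneg _)
    have h2 : (0 : ℝ) ≤ S.c I * M := mul_nonneg (NNReal.coe_nonneg _) hM0
    linarith
  set δ : ℝ := ε / (2 * A) with hδ
  have hδ0 : 0 < δ := by positivity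
  obtain ⟨N, c, u, hu, hus, happ⟩ := hap δ hδ0
  have huc : ∀ a l, HasCompactSupport (u a l) := fun a l => hcs_one (hus a l)
  set f : Fin N → (Fin k → ℂ) → ℂ := fun a x => ∏ l, u a l (x l) with hf
  have hfc : ∀ a, Continuous (f a) := fun a =>
    continuous_finsetProd _ fun l _ => (hu a l).continuous.comp (continuous_apply l)
  have hfs : ∀ a x, (∃ l, R ≤ ‖x l‖) → f a x = 0 := by
    rintro a x ⟨l, hl⟩
    exact Finset.prod_eq_zero (Finset.mem_univ l) (hus a l (x l) hl)
  have hfint : ∀ n a, Integrable (fun z => pushCoeff g n I J (f a) z * S.h z I J) S.σ := by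
    intro n a
    obtain ⟨Ba, hBa0, hBa⟩ := prod_bdd (fun l => (hu a l).continuous) (huc a)
    exact (hbd S I J n Ba (f a) hBa0 (hfc a) hBa (hfs a)).1
  set χ' : (Fin k → ℂ) → ℂ := fun x => ∑ a, c a * f a x with hχ'
  have hχ'c : Continuous χ' := continuous_finsetSum _ fun a _ => continuous_const.mul (hfc a)
  have hχ's : ∀ x, (∃ l, R ≤ ‖x l‖) → χ' x = 0 := by
    intro x hx
    simp only [hχ']
    exact Finset.sum_eq_zero fun a _ => by rw [hfs a x hx, mul_zero]
  have hT : Tendsto (fun n => pairing g n S I J χ') atTop (𝓝 (limVal μ S I J χ')) := by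
    have e1 : ∀ n, pairing g n S I J χ' = ∑ a, c a * pairing g n S I J (f a) := fun n =>
      pairing_sum g n S I J c f (hfint n)
    have e2 : limVal μ S I J χ' = ∑ a, c a * limVal μ S I J (f a) := by
      unfold limVal
      split_ifs
      · have hI : ∀ a, Integrable (f a) (limMeas μ I) := fun a =>
          (hfc a).integrable_of_hasCompactSupport (hcs_of_support (hfs a))
        simp only [hχ']
        rw [integral_finsetSum _ fun a _ => (hI a).const_mul (c a), Finset.mul_sum]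
        refine Finset.sum_congr rfl fun a _ => ?_
        rw [integral_const_mul]
        ring
      · simp
    simp_rw [e1]
    rw [e2]
    refine tendsto_finsetSum _ fun a _ => Tendsto.const_mul (c a) ?_
    obtain ⟨C, hC0, hC⟩ := hrate (u a) (hu a) (huc a)
    rw [tendsto_iff_norm_sub_tendsto_zero]
    refine squeeze_zero (fun n => norm_nonneg _) (fun n => hC S I J n) ?_
    have := (tendsto_pow_atTop_nhds_zero_of_lt_one hr0.le hr1).const_mul
      (C * Real.sqrt (S.c I * S.c J))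
    simpa using this
  rw [Metric.tendsto_atTop] at hT
  obtain ⟨n0, hn0⟩ := hT (ε / 2) (by positivity)
  refine ⟨n0, fun n hn => ?_⟩
  have hdiff : ∀ x, ‖χ x - χ' x‖ ≤ δ := happ
  have hds : ∀ x, (∃ l, R ≤ ‖x l‖) → χ x - χ' x = 0 := fun x hx => by
    rw [hR x hx, hχ's x hx, sub_zero]
  have hdc : Continuous fun x => χ x - χ' x := hχ.sub hχ'c
  have hχ'int : Integrable (fun z => pushCoeff g n I J χ' z * S.h z I J) S.σ :=
    int_sum g n S I J c f (hfint n)
  have b1 : ‖pairing g n S I J χ - pairing g n S I J χ'‖ ≤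
      δ * Cb * Real.sqrt (S.c I * S.c J) := by
    rw [← pairing_sub g n S I J χ χ' (hint n) hχ'int]
    exact (hbd S I J n δ _ hδ0.le hdc hdiff hds).2
  have b2 : ‖limVal μ S I J χ - limVal μ S I J χ'‖ ≤ S.c I * (δ * M) := by
    rw [← hlimsub χ χ' hχ hχ'c hχc (hcs_of_support hχ's)]
    exact hlimnorm _ δ hδ0.le hdiff hds
  have b3 : ‖pairing g n S I J χ' - limVal μ S I J χ'‖ < ε / 2 := by
    have := hn0 n hn
    rwa [dist_eq_norm] at this
  rw [dist_eq_norm]
  have htri : ‖pairing g n S I J χ - limVal μ S I J χ‖ ≤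
      ‖pairing g n S I J χ - pairing g n S I J χ'‖ +
      ‖pairing g n S I J χ' - limVal μ S I J χ'‖ +
      ‖limVal μ S I J χ - limVal μ S I J χ'‖ := by
    have e : pairing g n S I J χ - limVal μ S I J χ =
        (pairing g n S I J χ - pairing g n S I J χ') +
        (pairing g n S I J χ' - limVal μ S I J χ') -
        (limVal μ S I J χ - limVal μ S I J χ') := by ring
    rw [e]
    exact (norm_sub_le _ _).trans (add_le_add_left (norm_add_le _ _) _)
  have hsum : δ * Cb * Real.sqrt (S.c I * S.c J) + S.c I * (δ * M) ≤ ε / 2 := by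
    have e : δ * Cb * Real.sqrt (S.c I * S.c J) + S.c I * (δ * M) = δ * (A - 1) := by
      rw [hA]; ring
    have e2 : δ * A = ε / 2 := by
      rw [hδ]; field_simp
    rw [e]
    nlinarith
  linarith

end Pool.Agent.H83.UDA
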